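import Mathlib
import Pool.Agent.H20.Cusp

set_option autoImplicit false

namespace Pool.Agent.Results.MP_21a573_al.NotEqual

open Pool.Agent.H20.CuspDef

theorem result :
    (∃ x : SL2 (AlgebraicClosure (ZMod 2)),
      Scusp (ZMod 2) (clos (ZMod 2) x) ≠ Sw (ZMod 2) (clos (ZMod 2) x)) ∧
    (∃ x : SL2 (AlgebraicClosure (ZMod 3)),
      Scusp (ZMod 3) (clos (ZMod 3) x) ≠ Sw (ZMod 3) (clos (ZMod 3) x)) :=
  ⟨⟨_, Pool.Agent.H20.Cusp.main2⟩, ⟨_, Pool.Agent.H20.Cusp.main3⟩⟩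

end Pool.Agent.Results.MP_21a573_al.NotEqual
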